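import Pool.Agent.ASE.Stmts9
import Pool.Agent.Helper46_WRA.Afc
import Pool.Agent.Helper51_AWC.Abelian
import Pool.Agent.Helper51_AWC.Prod
import Pool.Agent.Helper3_K9.Psi

/-!
# Squad ASE, row CHZ: the characters of `V₀ × ker φ`
-/

open scoped BigOperators

set_option autoImplicit false

noncomputable section

namespace Pool.Agent.PP.SE.H8

open Pool.Agent.Helper51_AWC Pool.Agent.Helper79_WRA Pool.Agent.PP Pool.Agent.PP.KF
open Pool.Agent.PP.K9 Pool.Agent.PP.K9.H97 Pool.Agent.PP.H75 Pool.Agent.PP.T3 Pool.Agent.PP.SO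
open Pool.Agent.PP.SD

attribute [local instance] Ideal.Quotient.field

section iso

variable {V₀ S : Type} [CommGroup V₀] [Group S] (φ : S →* MulAut V₀)

/-- `V₀ ⋊ ker φ` is a direct product -/
def eRS : RS φ φ.ker ≃* V₀ × φ.ker where
  toFun y := (y.1.left, ⟨y.1.right, y.2⟩)
  invFun z := ⟨⟨z.1, z.2.1⟩, z.2.2⟩
  left_inv y := rfl
  right_inv z := rfl
  map_mul' x y := by
    have h : φ x.1.right = 1 := x.2
    apply Prod.ext
    · show x.1.left * (φ x.1.right) y.1.left = x.1.left * y.1.left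
      rw [h]
      rfl
    · rfl

end iso

section riso

variable {H K : Type} [Group H] [Group K] [Finite H] [Finite K]
  {M : Ideal (integralClosure ℤ ℂ)} [hM : M.IsMaximal]

omit hM in
/-- transport of the residue along an isomorphism -/
theorem res_iso (α : H ≃* K) {b : K → FF M} (hb : IsCl b) {θ : K → ℂ} (hθ : θ ∈ Irr K) :
    res M (fun x => b (α x)) (fun x => θ (α x)) = res M b θ := by
  classical
  have := Fintype.ofFinite H
  have := Fintype.ofFinite K
  obtain ⟨a, ha, ea⟩ := H50.exists_lift (M := M) hb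
  have hθ' : (fun x => θ (α x)) ∈ Irr H :=
    K9.H3.irr_infl (p := α.toMonoidHom) α.surjective hθ
  have h1 : (fun t => Ideal.Quotient.mk M (a t)) = b := funext ea
  have h2 : (fun t => Ideal.Quotient.mk M (a (α t))) = fun x => b (α x) := by
    funext t
    exact ea (α t)
  have ha' : H50.Cl (fun t => a (α t)) := by
    intro x y
    show a (α (y * x * y⁻¹)) = a (α x)
    rw [map_mul, map_mul, map_inv]
    exact ha _ _
  rw [← h2, ← h1]
  rw [(H50.res_irr a ha hθ).1, (H50.res_irr (fun t => a (α t)) ha' hθ').1]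
  congr 1
  unfold H50.om
  congr 1
  · exact Equiv.sum_comp α.toEquiv (fun t => (a t : ℂ) * θ t)
  · show θ (α 1) = θ 1
    rw [map_one]

end riso

section prod

variable {M : Ideal (integralClosure ℤ ℂ)} [hM : M.IsMaximal] {V K : Type} [Group V] [Finite V]
  [Group K] [Finite K]

omit hM in
open Classical in
/-- the residue of a product -/
theorem res_prod {b : K → FF M} (hb : IsCl b) {ψ : V → ℂ} (hψ : ψ ∈ Irr V) (h1 : ψ 1 = 1)
    {η : K → ℂ} (hη : η ∈ Irr K) :
    res M (fun z : V × K => if z.1 = 1 then b z.2 else 0) (prodChar ψ η) = res M b η := by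
  have := Fintype.ofFinite V
  have := Fintype.ofFinite K
  obtain ⟨a, ha, ea⟩ := H50.exists_lift (M := M) hb
  have e1 : (fun t => Ideal.Quotient.mk M (a t)) = b := funext ea
  have e2 : (fun z : V × K => Ideal.Quotient.mk M (if z.1 = 1 then a z.2 else 0)) =
      fun z : V × K => if z.1 = 1 then b z.2 else 0 := by
    funext z
    by_cases h : z.1 = 1
    · rw [if_pos h, if_pos h]
      exact ea z.2
    · rw [if_neg h, if_neg h, map_zero]
  have ha' : H50.Cl (fun z : V × K => if z.1 = 1 then a z.2 else 0) := by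
    intro x y
    show (if y.1 * x.1 * y.1⁻¹ = 1 then a (y.2 * x.2 * y.2⁻¹) else 0) = if x.1 = 1 then a x.2 else 0
    have h2 : y.1 * x.1 * y.1⁻¹ = 1 ↔ x.1 = 1 := conj_eq_one_iff
    by_cases h : x.1 = 1
    · rw [if_pos h, if_pos (h2.2 h)]
      exact ha _ _
    · rw [if_neg h, if_neg (fun h' => h (h2.1 h'))]
  rw [← e2, (H50.res_irr _ ha' (prodChar_mem hψ hη)).1]
  conv_rhs => rw [← e1, (H50.res_irr a ha hη).1]
  congr 1
  unfold H50.om
  have e3 : prodChar ψ η 1 = η 1 := by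
    show ψ 1 * η 1 = η 1
    rw [h1, one_mul]
  rw [e3]
  congr 1
  rw [Fintype.sum_prod_type, Finset.sum_eq_single_of_mem (1 : V) (Finset.mem_univ _)]
  · refine Finset.sum_congr rfl fun t _ => ?_
    show ((if (1 : V) = 1 then a t else 0 : integralClosure ℤ ℂ) : ℂ) * (ψ 1 * η t) = _
    rw [if_pos rfl, h1, one_mul]
  · intro v _ hv
    refine Finset.sum_eq_zero fun t _ => ?_
    show ((if v = 1 then a t else 0 : integralClosure ℤ ℂ) : ℂ) * (ψ v * η t) = _
    rw [if_neg hv]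
    simp

end prod

section th

variable {ℓ : ℕ} {M : Ideal (integralClosure ℤ ℂ)} [hM : M.IsMaximal] {V₀ S : Type}
  [CommGroup V₀] [Finite V₀] [Group S] [Finite S] {φ : S →* MulAut V₀} {θ : S → FF M} {κ : S → ℂ}
  {d : ℕ}

omit [Finite V₀] [Finite S] in
theorem th_mem (h : Th ℓ M φ θ κ d) :
    (fun t : φ.ker => κ t) ∈ IrrE M (fun t : φ.ker => θ t) := by
  rw [h.ki]
  rfl

omit [Finite V₀] in
theorem th_norm (h : Th ℓ M φ θ κ d) :
    ∑ᶠ s : φ.ker, κ (s : S)⁻¹ * κ s = Nat.card φ.ker := by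
  have := Fintype.ofFinite φ.ker
  rw [finsum_eq_sum_of_fintype, Nat.card_eq_fintype_card, ← irr_orth_self (th_mem h).1]
  refine Finset.sum_congr rfl fun s _ => ?_
  rw [mul_comm]
  rfl

omit [Finite V₀] [Finite S] in
open Classical in
/-- the block `1 × θ` of `V₀ × ker φ` -/
theorem eR_eq (θ : S → FF M) : (fun y : RS φ φ.ker => eR φ θ y) = fun y => (fun z : V₀ × φ.ker =>
    if z.1 = 1 then (fun t : φ.ker => θ t) z.2 else 0) (eRS φ y) := by
  funext y
  rfl

end th

/-- CHZ -/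
theorem chz : ChzStmt := by
  classical
  intro ℓ _ M hM hℓ V₀ S _ _ _ _ φ θ κ d hF h
  refine ⟨th_norm h, ?_⟩
  have hcl : IsCl (fun t : φ.ker => θ t) := fun x y => h.cl x y
  have hcl' : IsCl (fun z : V₀ × φ.ker => if z.1 = 1 then (fun t : φ.ker => θ t) z.2 else 0) := by
    intro x y
    show (if y.1 * x.1 * y.1⁻¹ = 1 then (fun t : φ.ker => θ t) (y.2 * x.2 * y.2⁻¹) else 0) =
      if x.1 = 1 then (fun t : φ.ker => θ t) x.2 else 0
    have h2 : y.1 * x.1 * y.1⁻¹ = 1 ↔ x.1 = 1 := conj_eq_one_iff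
    by_cases h' : x.1 = 1
    · rw [if_pos h', if_pos (h2.2 h')]
      exact hcl _ _
    · rw [if_neg h', if_neg (fun h'' => h' (h2.1 h''))]
  have := Fintype.ofFinite V₀
  have := Fintype.ofFinite φ.ker
  have hfin : Finite (RS φ φ.ker) := Finite.of_equiv _ (eRS φ).symm.toEquiv
  ext ψ
  constructor
  · rintro ⟨hψ, hres⟩
    have h1 : (fun z => ψ ((eRS φ).symm z)) ∈ Irr (V₀ × φ.ker) := irr_comp_equiv (eRS φ).symm hψ
    obtain ⟨χ, hχ, η, hη, h2⟩ := exists_prodChar h1
    obtain ⟨μ, rfl⟩ := H46.irr_comm (fun x y : V₀ => mul_comm x y) hχ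
    have h3 : ψ = fun y => prodChar (fun g => ((μ g : ℂˣ) : ℂ)) η (eRS φ y) := by
      funext y
      rw [← h2]
      show ψ y = ψ ((eRS φ).symm (eRS φ y))
      rw [MulEquiv.symm_apply_apply]
    have h4 : res M (fun t : φ.ker => θ t) η = 1 := by
      rw [← res_prod hcl hχ (by simp) hη, ← res_iso (eRS φ) hcl' (prodChar_mem hχ hη), ← hres,
        h3]
      rfl
    have h5 : η ∈ IrrE M (fun t : φ.ker => θ t) := ⟨hη, h4⟩
    rw [h.ki, Set.mem_singleton_iff] at h5
    refine ⟨fun g => ((μ g : ℂˣ) : ℂ), ⟨by simp, fun v w => by simp⟩, ?_⟩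
    rw [h3, h5]
    rfl
  · rintro ⟨lam, hlam, rfl⟩
    let μ : V₀ →* ℂˣ := MonoidHom.toHomUnits ⟨⟨lam, hlam.1⟩, hlam.2⟩
    have hμ : (fun g => ((μ g : ℂˣ) : ℂ)) = lam := rfl
    have h1 : lam ∈ Irr V₀ := by
      rw [← hμ]
      exact linear_mem_Irr μ
    have h2 := th_mem h
    have h3 : (fun y : RS φ φ.ker => lam (y : V₀ ⋊[φ] S).left * κ (y : V₀ ⋊[φ] S).right) =
        fun y => prodChar lam (fun t : φ.ker => κ t) (eRS φ y) := rfl
    have h4 := prodChar_mem h1 h2.1
    refine ⟨?_, ?_⟩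
    · rw [h3]
      exact irr_comp_equiv (eRS φ) h4
    · rw [h3, eR_eq, res_iso (eRS φ) hcl' h4, res_prod hcl h1 hlam.1 h2.1]
      exact h2.2

end Pool.Agent.PP.SE.H8
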