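import Pool.Agent.ASE.Stmts9

/-!
# Squad ASE, row EXG: exceptional characters of the comparison datum
-/

open scoped BigOperators

set_option autoImplicit false

noncomputable section

namespace Pool.Agent.PP.SE.H8

open Pool.Agent.Helper51_AWC Pool.Agent.Helper79_WRA Pool.Agent.PP Pool.Agent.PP.KF
open Pool.Agent.PP.K9 Pool.Agent.PP.K9.H97 Pool.Agent.PP.H75 Pool.Agent.PP.T3 Pool.Agent.PP.SO
open Pool.Agent.PP.SD

attribute [local instance] Ideal.Quotient.field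

theorem fs_congr {V₀ : Type} [CommGroup V₀] {f : MulAut V₀ → ℂ} {A B : Subgroup (MulAut V₀)}
    (h : A = B) : ∑ᶠ τ : A, f τ = ∑ᶠ τ : B, f τ := by
  subst h
  rfl

/-- EXG -/
theorem exg (cen : CenStmt) (blg : BlgStmt) (ind : IndStmt) (vnu : VnuStmt) (llw : LlwStmt)
    (xcg : XcgStmt) : ExgStmt := by
  classical
  intro ℓ _ M _ hℓ V₀ S G _ _ _ _ _ _ φ θ κ d π j hF hT hC W hW
  have hp : ℓ.Prime := Fact.out
  by_cases hn : nS φ.range W = ℓ - 1
  · obtain ⟨h1, h2⟩ := xcg ℓ M hℓ V₀ S G φ θ κ d π j hF hT hC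
    refine ⟨xcG ℓ κ π j W, ⟨(h1.m W hW hn).1, Or.inl ⟨hn, rfl⟩⟩, ?_⟩
    rw [h2, hn, Nat.cast_sub hp.one_le]
    push_cast
    ring
  · obtain ⟨-, -, -, c1⟩ := cen ℓ V₀ S G φ π j hF hC
    obtain ⟨c2, -, c3, c4, -, -, c5, -⟩ := c1 W
    obtain ⟨⟨lam, hl, hlW, hl1⟩, h1⟩ := llw ℓ V₀ φ.range hF W hW
    obtain ⟨-, h2, -, h3⟩ := h1 lam hl hlW hl1
    obtain ⟨x, y, hx, hy, hpx, hpy, hxy⟩ := h3 hn
    obtain ⟨S₁, hS₁⟩ : ∃ S₁ : Subgroup S, S₁ = (St φ.range W).comap φ := ⟨_, rfl⟩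
    rw [← hS₁] at c3 c5
    have hle : St φ.range W ≤ φ.range := fun τ hτ => hτ.1
    have hmap : S₁.map φ = St φ.range W := by
      rw [hS₁, Subgroup.map_comap_eq]
      exact inf_eq_right.2 hle
    have h4 := ind ℓ M hℓ V₀ S φ θ κ d hF hT S₁ c5 lam hl (fun s hs h => by
      refine h2 (φ s) ?_ h
      rw [hS₁] at hs
      exact hs)
    obtain ⟨-, h5, -⟩ := (blg ℓ M hℓ V₀ S G φ θ κ d π j hF hT hC).2.2 (CG j W) c4 S₁ c5 c3
    have h6 := h5 (xiL φ κ S₁ lam) h4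
    obtain ⟨χ, hχ⟩ : ∃ χ : G → ℂ, χ = fun x => if x ∈ CG j W then xiL φ κ S₁ lam (π x) else 0 :=
      ⟨_, rfl⟩
    have hCh : χ ∈ Ch (BG φ θ d π j) W := by
      refine ⟨?_, ?_⟩
      · intro g hg
        rw [hχ]
        exact if_neg hg
      · have e1 : (fun t : (BG φ θ d π j).C W => χ t) =
            fun t : CG j W => xiL φ κ S₁ lam (π t) := by
          funext t
          rw [hχ]
          exact if_pos t.2
        have e2 : (fun t : (BG φ θ d π j).C W => (BG φ θ d π j).b W t) =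
            fun t : CG j W => eR φ θ (π t) := by
          funext t
          exact if_pos t.2
        rw [e1, e2]
        exact h6
    obtain ⟨h7, -⟩ := vnu ℓ M hℓ V₀ S G φ θ κ d π j hF hT hC χ
      (fun v => ∑ᶠ τ : St φ.range W, lam ((τ : MulAut V₀) v)) (fun v s hs => by
        have h8 : j ⟨v, s⟩ ∈ CG j W := by
          rw [c2]
          show φ s ∈ St φ.range W
          rw [hs]
          exact Subgroup.one_mem _
        rw [hχ]
        show (if j ⟨v, s⟩ ∈ CG j W then xiL φ κ S₁ lam (π (j ⟨v, s⟩)) else 0) = _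
        rw [if_pos h8, hC.sec]
        show κ s * ∑ᶠ τ : S₁.map φ, lam ((τ : MulAut V₀) v) = _
        rw [fs_congr (f := fun τ => lam (τ v)) hmap])
    refine ⟨χ, ⟨hCh, Or.inr ⟨x, y, hx, hy, hpx, hpy, ?_⟩⟩, ?_⟩
    · rw [h7, h7]
      exact hxy
    · have h8 : (1 : G) ∈ CG j W := Subgroup.one_mem _
      rw [hχ]
      show (if (1 : G) ∈ CG j W then xiL φ κ S₁ lam (π 1) else 0) = _
      rw [if_pos h8, map_one]
      show κ (1 : S) * ∑ᶠ τ : S₁.map φ, lam ((τ : MulAut V₀) 1) = _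
      rw [fs_congr (f := fun τ => lam (τ 1)) hmap, hT.kd]
      have h9 : ∀ τ : St φ.range W, lam ((τ : MulAut V₀) 1) = 1 := by
        intro τ
        rw [map_one]
        exact hl.1
      have := Fintype.ofFinite (St φ.range W)
      rw [finsum_eq_sum_of_fintype, Finset.sum_congr rfl (fun τ _ => h9 τ)]
      simp only [Finset.sum_const, Finset.card_univ, nsmul_eq_mul, mul_one]
      rw [nS, Nat.card_eq_fintype_card]
      ring

end Pool.Agent.PP.SE.H8
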