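import Pool.Agent.ASE.Stmts9

/-!
# Squad ASE, row PEG: the exponent of the comparison group
-/

noncomputable section

namespace Pool.Agent.PP.SE.H8

open Pool.Agent.Helper51_AWC Pool.Agent.Helper79_WRA Pool.Agent.PP Pool.Agent.PP.KF
open Pool.Agent.PP.K9 Pool.Agent.PP.K9.H97 Pool.Agent.PP.H75 Pool.Agent.PP.T3 Pool.Agent.PP.SO
open Pool.Agent.PP.SD

/-- the exponents -/
theorem pe_of (ℓ : ℕ) [Fact ℓ.Prime] (G : Type) [Group G] [Finite G] (r : ℕ) (hr : 0 < r)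
    (hEl : ∀ x : G, El ℓ x → x ^ ℓ ^ r = 1) : ∃ m, PE ℓ (ℓ ^ r) m G := by
  have hℓ : ℓ.Prime := Fact.out
  obtain ⟨a, c, hc, hcard⟩ := Nat.exists_eq_pow_mul_and_not_dvd (n := Nat.card G)
    Nat.card_pos.ne' ℓ hℓ.ne_one
  have hco : Nat.Coprime ℓ c := (Nat.Prime.coprime_iff_not_dvd hℓ).2 hc
  have hco' : Nat.Coprime (ℓ ^ r) c := Nat.Coprime.pow_left r hco
  obtain ⟨m, hm1, hm2⟩ := Nat.chineseRemainder hco' 1 0
  have hmc : c ∣ m := (Nat.modEq_zero_iff_dvd).1 hm2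
  refine ⟨m, ⟨r, hr, rfl⟩, ?_, ?_, ?_⟩
  · have h0 : m ≡ 1 [MOD ℓ] := hm1.of_dvd (dvd_pow_self ℓ hr.ne')
    have h1 : m % ℓ = 1 % ℓ := h0
    rw [h1]
    exact Nat.mod_eq_of_lt hℓ.one_lt
  · intro g hg
    have h1 := hEl g hg
    refine ⟨?_, h1⟩
    have h2 : g ^ m = g ^ 1 := by
      rw [pow_eq_pow_iff_modEq]
      exact hm1.of_dvd (orderOf_dvd_of_pow_eq_one h1)
    rw [h2, pow_one]
  · intro g hg
    have h1 : orderOf g ∣ ℓ ^ a * c := by
      rw [← hcard]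
      exact orderOf_dvd_natCard g
    have h2 : orderOf g ∣ c := by
      refine Nat.Coprime.dvd_of_dvd_mul_left ?_ h1
      exact Nat.Coprime.pow_right a hg
    exact orderOf_dvd_iff_pow_eq_one.1 (h2.trans hmc)

/-- an element whose order divides a power of `ℓ` in a subgroup of order prime to `ℓ` -/
theorem one_of {A : Type} [Group A] [Finite A] {ℓ : ℕ} (hℓ : ℓ.Prime) (H : Subgroup A)
    (hH : ¬ ℓ ∣ Nat.card H) (x : A) (hx : x ∈ H) (n : ℕ) (h : x ^ ℓ ^ n = 1) : x = 1 := by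
  have h1 : orderOf x ∣ ℓ ^ n := orderOf_dvd_of_pow_eq_one h
  have h2 : orderOf x ∣ Nat.card H := by
    have := orderOf_dvd_natCard (⟨x, hx⟩ : H)
    rwa [← Subgroup.orderOf_coe] at this
  have h3 : Nat.Coprime (ℓ ^ n) (Nat.card H) :=
    Nat.Coprime.pow_left n ((Nat.Prime.coprime_iff_not_dvd hℓ).2 hH)
  have h4 : orderOf x = 1 := Nat.dvd_one.1 (by rw [← h3]; exact Nat.dvd_gcd h1 h2)
  exact orderOf_eq_one_iff.1 h4

theorem pow_sd {V₀ S : Type} [CommGroup V₀] [Group S] (φ : S →* MulAut V₀) (y : V₀ ⋊[φ] S)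
    (h : φ y.right = 1) (k : ℕ) : y ^ k = ⟨y.left ^ k, y.right ^ k⟩ := by
  induction k with
  | zero => simp only [pow_zero]; rfl
  | succ k ih =>
    rw [pow_succ, ih]
    ext
    · rw [SemidirectProduct.mul_left]
      simp only [map_pow, h, one_pow]
      rw [pow_succ]
      rfl
    · rw [SemidirectProduct.mul_right]
      simp only
      rw [pow_succ]

/-- row PEG -/
theorem peg : PegStmt := by
  intro ℓ _ V₀ S G _ _ _ _ _ _ φ π j hq hc r hr hS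
  have hℓ : ℓ.Prime := Fact.out
  have hfA : Finite (MulAut V₀) := Finite.of_injective (fun σ : MulAut V₀ => (σ : V₀ → V₀))
    DFunLike.coe_injective
  refine pe_of ℓ G r hr ?_
  rintro x ⟨n, hn⟩
  have h1 : (π x) ^ ℓ ^ n = 1 := by rw [← map_pow, hn, map_one]
  have h2 : (π x).right ^ ℓ ^ n = 1 := by
    have h3 := congrArg (SemidirectProduct.rightHom (φ := φ)) h1
    rw [map_pow, map_one] at h3
    exact h3
  have h3 : φ (π x).right = 1 := by
    refine one_of hℓ φ.range hq.cp _ ⟨_, rfl⟩ n ?_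
    rw [← map_pow, h2, map_one]
  have h4 : π (x ^ ℓ ^ r) = 1 := by
    rw [map_pow, pow_sd φ (π x) h3]
    have h5 : (π x).right ^ ℓ ^ r = 1 := hS _ ⟨n, h2⟩
    have h6 : (π x).left ^ ℓ ^ r = 1 := by
      obtain ⟨t, rfl⟩ : ∃ t, r = t + 1 := ⟨r - 1, by omega⟩
      rw [pow_succ', pow_mul, hq.ex, one_pow]
    rw [h5, h6]
    rfl
  refine one_of hℓ π.ker hc.ck _ h4 n ?_
  rw [← pow_mul, mul_comm, pow_mul, hn, one_pow]

end Pool.Agent.PP.SE.H8

end
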